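import Pool.Agent.helper58.FI4E.Spec

/-! Row fi4e:TAU: `tau` of GR is `tL`. -/

set_option autoImplicit false

namespace Pool.Agent.FI4E

open Pool.Agent.helper58.DC Pool.Agent.DI Pool.Agent.GR Pool.Agent.OB Pool.Agent.DR Pool.Agent.FI Pool.Agent.FI3 Pool.Agent.FI4 Pool.Agent.FI4I

theorem TAU (hB2 : B2_stmt) : TAU_stmt := by
  classical
  intro p M G _ _ χ H α
  have hfin : (Blk M χ H).Finite := (hB2 G H).1.subset fun ψ hψ => hψ.1
  have hV : {v : G | v ∈ H ∧ PReg p v}.Finite := Set.toFinite _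
  unfold tau tL tS Sf EE
  have h1 : ∀ f : (G → ℂ) → ℂ, ∑ᶠ ψ ∈ Blk M χ H, f ψ = ∑ ψ ∈ hfin.toFinset, f ψ := fun f =>
    finsum_mem_eq_finite_toFinset_sum f hfin
  have h2 : ∀ f : G → ℂ, ∑ᶠ v ∈ {v : G | v ∈ H ∧ PReg p v}, f v = ∑ v ∈ hV.toFinset, f v := fun f =>
    finsum_mem_eq_finite_toFinset_sum f hV
  simp only [h1, h2]
  rw [Finset.sum_comm, Finset.sum_div]
  rfl

end Pool.Agent.FI4E
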